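import Mathlib

/-!
Sign changes: anti-concentration over the subsets of a finite set.
-/

set_option autoImplicit false

namespace Pool.Agent.Q267.OV

open Finset

/-- For each fixed part outside `A`, at most `q` sizes of the part inside `A` are allowed. -/
theorem subsets_le {ι : Type} [Fintype ι] [DecidableEq ι] (A : Finset ι) (P : Finset ι → Prop)
    [DecidablePred P] (q : ℕ)
    (h : ∀ S₀ : Finset ι, Disjoint S₀ A → ∃ Q : Finset ℕ, Q.card ≤ q ∧
      ∀ B, B ⊆ A → P (S₀ ∪ B) → B.card ∈ Q) :
    (univ.filter P).card ≤ q * (A.card.choose (A.card / 2)) * 2 ^ (Fintype.card ι - A.card) := by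
  classical
  set c := A.card.choose (A.card / 2) with hc
  have h1 : (univ.filter P).card ≤ (q * c) * ((Aᶜ).powerset).card := by
    refine Finset.card_le_mul_card_image_of_maps_to (f := fun S => S \ A) ?_ _ ?_
    · intro S _
      rw [mem_powerset]
      intro x hx
      rw [mem_compl]
      exact (mem_sdiff.mp hx).2
    · intro S₀ hS₀
      rw [mem_powerset] at hS₀
      have hdis : Disjoint S₀ A := by
        rw [Finset.disjoint_left]
        intro x hx hxA
        exact (mem_compl.mp (hS₀ hx)) hxA
      obtain ⟨Q, hQ, hQ2⟩ := h S₀ hdis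
      have h2 : ((univ.filter P).filter (fun S => S \ A = S₀)).card ≤
          (Q.biUnion (fun j => A.powersetCard j)).card := by
        refine Finset.card_le_card_of_injOn (fun S => S ∩ A) ?_ ?_
        · intro S hS
          rw [mem_coe, mem_filter, mem_filter] at hS
          obtain ⟨⟨_, hP⟩, hS1⟩ := hS
          have hS2 : S₀ ∪ (S ∩ A) = S := by
            rw [← hS1]
            exact Finset.sdiff_union_inter S A
          rw [mem_coe, mem_biUnion]
          refine ⟨(S ∩ A).card, hQ2 _ inter_subset_right (by rw [hS2]; exact hP), ?_⟩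
          rw [mem_powersetCard]
          exact ⟨inter_subset_right, rfl⟩
        · intro S hS S' hS' he
          rw [mem_coe, mem_filter] at hS hS'
          simp only at he
          rw [← Finset.sdiff_union_inter S A, ← Finset.sdiff_union_inter S' A, hS.2, hS'.2, he]
      refine h2.trans (card_biUnion_le.trans ?_)
      have h3 : ∀ j ∈ Q, (A.powersetCard j).card ≤ c := by
        intro j _
        rw [card_powersetCard]
        exact Nat.choose_le_middle j A.card
      refine (Finset.sum_le_sum h3).trans ?_
      rw [sum_const, smul_eq_mul]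
      exact Nat.mul_le_mul_right _ hQ
  rw [card_powerset, card_compl] at h1
  exact h1

theorem central_sq (n : ℕ) : n.centralBinom ^ 2 * (2 * n + 1) ≤ 16 ^ n := by
  induction n with
  | zero => simp
  | succ n ih =>
    have h := Nat.succ_mul_centralBinom_succ n
    have h1 : (n + 1) ^ 2 * ((n + 1).centralBinom ^ 2 * (2 * (n + 1) + 1)) ≤
        (n + 1) ^ 2 * 16 ^ (n + 1) := by
      calc (n + 1) ^ 2 * ((n + 1).centralBinom ^ 2 * (2 * (n + 1) + 1))
          = ((n + 1) * (n + 1).centralBinom) ^ 2 * (2 * n + 3) := by ring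
        _ = (2 * (2 * n + 1) * n.centralBinom) ^ 2 * (2 * n + 3) := by rw [h]
        _ = (n.centralBinom ^ 2 * (2 * n + 1)) * (4 * ((2 * n + 1) * (2 * n + 3))) := by ring
        _ ≤ 16 ^ n * (4 * (4 * (n + 1) ^ 2)) := by
            refine Nat.mul_le_mul ih (Nat.mul_le_mul_left _ ?_)
            nlinarith
        _ = (n + 1) ^ 2 * 16 ^ (n + 1) := by ring
    exact Nat.le_of_mul_le_mul_left h1 (by positivity)

/-- the largest probability of a value of a sum of `2 m` signs -/
noncomputable def bet (m : ℕ) : ℝ := (m.centralBinom : ℝ) / 4 ^ m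

theorem bet_nonneg (m : ℕ) : 0 ≤ bet m := by unfold bet; positivity

theorem bet_le (m : ℕ) : bet m ≤ 1 / √(2 * m + 1) := by
  unfold bet
  rw [div_le_div_iff₀ (by positivity) (by positivity), one_mul]
  have h := central_sq m
  have h1 : (m.centralBinom : ℝ) ^ 2 * (2 * m + 1) ≤ 16 ^ m := by exact_mod_cast h
  have h2 : ((m.centralBinom : ℝ) * √(2 * m + 1)) ^ 2 ≤ (4 ^ m) ^ 2 := by
    rw [mul_pow, Real.sq_sqrt (by positivity), ← pow_mul, mul_comm m 2, pow_mul]
    norm_num
    exact h1
  exact le_of_sq_le_sq h2 (by positivity) |> fun h => h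

end Pool.Agent.Q267.OV
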