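import Pool.Agent.Q267.OV.Gen1

/-!
Two signed letter counts of a word: one seldom divides the other.
-/

set_option autoImplicit false

namespace Pool.Agent.Q267.OV

open Finset

variable {I : Type} [Fintype I] [DecidableEq I]

/-- the weighted sum of the word with types `t` and positive letters `S` -/
def tv (g : I → ℤ) {n : ℕ} (t : Fin n → I) (S : Finset (Fin n)) : ℤ :=
  2 * ∑ j ∈ S, g (t j) - ∑ j, g (t j)

omit [Fintype I] [DecidableEq I] in
theorem tv_union (g : I → ℤ) {n : ℕ} (t : Fin n → I) (S₀ A B : Finset (Fin n)) (i : I)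
    (hA : ∀ j ∈ A, t j = i) (hS : Disjoint S₀ A) (hB : B ⊆ A) :
    tv g t (S₀ ∪ B) = tv g t S₀ + 2 * g i * B.card := by
  have h1 : Disjoint S₀ B := hS.mono_right hB
  unfold tv
  rw [sum_union h1]
  have h2 : ∑ j ∈ B, g (t j) = B.card * g i := by
    rw [sum_congr rfl (fun j hj => by rw [hA j (hB hj)]), sum_const, nsmul_eq_mul]
  rw [h2]
  ring

theorem few_types (i : I) (m n : ℕ) :
    (((univ : Finset (Fin n → I)).filter
      (fun t => (univ.filter (fun j => t j = i)).card < m)).card : ℝ) ≤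
      2 ^ m * ((Fintype.card I : ℝ) - 1 / 2) ^ n := by
  have h1 : ∑ t : Fin n → I, ∏ j, (if t j = i then (1 / 2 : ℝ) else 1) =
      ((Fintype.card I : ℝ) - 1 / 2) ^ n := by
    have h2 := Finset.prod_univ_sum (fun _ : Fin n => (univ : Finset I))
      (fun _ i' => if i' = i then (1 / 2 : ℝ) else 1)
    rw [Fintype.piFinset_univ] at h2
    rw [← h2, prod_const, card_univ, Fintype.card_fin]
    congr 1
    have h3 : ∀ i' : I, (if i' = i then (1 / 2 : ℝ) else 1) = 1 - if i' = i then 1 / 2 else 0 := by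
      intro i'
      split_ifs <;> norm_num
    rw [sum_congr rfl (fun i' _ => h3 i'), sum_sub_distrib, sum_const, card_univ, nsmul_eq_mul,
      mul_one, sum_ite_eq' univ i, if_pos (mem_univ _)]
  have h4 : ∀ t ∈ (univ : Finset (Fin n → I)).filter
      (fun t => (univ.filter (fun j => t j = i)).card < m),
      ((1 : ℝ) / 2) ^ m ≤ ∏ j, (if t j = i then (1 / 2 : ℝ) else 1) := by
    intro t ht
    rw [mem_filter] at ht
    rw [prod_ite, prod_const, prod_const, one_pow, mul_one]
    exact pow_le_pow_of_le_one (by norm_num) (by norm_num) ht.2.le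
  have h5 : (((univ : Finset (Fin n → I)).filter
      (fun t => (univ.filter (fun j => t j = i)).card < m)).card : ℝ) * (1 / 2) ^ m ≤
      ((Fintype.card I : ℝ) - 1 / 2) ^ n := by
    rw [← h1, ← nsmul_eq_mul, ← sum_const]
    refine (sum_le_sum h4).trans ?_
    refine sum_le_sum_of_subset_of_nonneg (filter_subset _ _) (fun t _ _ => ?_)
    exact prod_nonneg fun j _ => by split_ifs <;> norm_num
  have h6 : (2 : ℝ) ^ m * (1 / 2) ^ m = 1 := by
    rw [← mul_pow]; norm_num
  calc (((univ : Finset (Fin n → I)).filter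
      (fun t => (univ.filter (fun j => t j = i)).card < m)).card : ℝ)
      = 2 ^ m * ((((univ : Finset (Fin n → I)).filter
      (fun t => (univ.filter (fun j => t j = i)).card < m)).card : ℝ) * (1 / 2) ^ m) := by
        rw [mul_left_comm, h6, mul_one]
    _ ≤ _ := mul_le_mul_of_nonneg_left h5 (by positivity)

omit [Fintype I] in
/-- fixed types with many letters of both kinds -/
theorem bad_signs {n : ℕ} (t : Fin n → I) (x i : I) (hxi : x ≠ i) (g : I → ℤ)
    (a : ℤ) (ha : g i = a) (ha0 : a ≠ 0) (m₁ m₂ : ℕ)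
    (h₁ : 2 * m₁ ≤ (univ.filter (fun j => t j = x)).card)
    (h₂ : 2 * m₂ ≤ (univ.filter (fun j => t j = i)).card) :
    (((univ : Finset (Finset (Fin n))).filter (fun S =>
      tv (fun y => if y = x then 1 else 0) t S ∣ tv g t S)).card : ℝ) ≤
      2 ^ n * (2 * (4 * (a.natAbs : ℝ) * m₂ + 1) * bet m₁ + bet m₂) := by
  classical
  set e : Finset (Fin n) → ℤ := tv (fun y => if y = x then 1 else 0) t with he
  set T : ℕ := 4 * a.natAbs * m₂ + 1 with hT
  obtain ⟨A₁, hA₁, hA₁c⟩ := exists_subset_card_eq h₁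
  obtain ⟨A₂, hA₂, hA₂c⟩ := exists_subset_card_eq h₂
  have hA₁x : ∀ j ∈ A₁, t j = x := fun j hj => (mem_filter.mp (hA₁ hj)).2
  have hA₂i : ∀ j ∈ A₂, t j = i := fun j hj => (mem_filter.mp (hA₂ hj)).2
  -- small exponent sums
  have b1 : ((univ : Finset (Finset (Fin n))).filter (fun S => (e S).natAbs < T)).card ≤
      (2 * T) * (A₁.card.choose (A₁.card / 2)) * 2 ^ (Fintype.card (Fin n) - A₁.card) := by
    refine subsets_le A₁ _ (2 * T) (fun S₀ hS₀ => ?_)
    refine ⟨(range (2 * m₁ + 1)).filter (fun c : ℕ => (e S₀ + 2 * (c : ℤ)).natAbs < T), ?_, ?_⟩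
    · have h3 : ((range (2 * m₁ + 1)).filter
          (fun c : ℕ => (e S₀ + 2 * (c : ℤ)).natAbs < T)).card ≤ (Finset.Ioo (-(T : ℤ)) T).card := by
        refine card_le_card_of_injOn (fun c : ℕ => e S₀ + 2 * (c : ℤ)) ?_ ?_
        · intro c hc
          rw [mem_coe, mem_filter] at hc
          rw [mem_coe, mem_Ioo]
          have h31 := hc.2
          show -(T : ℤ) < e S₀ + 2 * (c : ℤ) ∧ e S₀ + 2 * (c : ℤ) < (T : ℤ)
          generalize e S₀ = z at *
          generalize T = T' at *
          omega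
        · intro c _ c' _ h
          simp only at h
          omega
      refine h3.trans ?_
      rw [Int.card_Ioo]
      omega
    · intro B hB hP
      rw [he, tv_union _ t S₀ A₁ B x hA₁x hS₀ hB, if_pos rfl, mul_one] at hP
      rw [mem_filter, mem_range]
      exact ⟨by have := card_le_card hB; omega, hP⟩
  -- large exponent sums
  have b2 : ((univ : Finset (Finset (Fin n))).filter
      (fun S => T ≤ (e S).natAbs ∧ e S ∣ tv g t S)).card ≤
      1 * (A₂.card.choose (A₂.card / 2)) * 2 ^ (Fintype.card (Fin n) - A₂.card) := by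
    refine subsets_le A₂ _ 1 (fun S₀ hS₀ => ?_)
    refine ⟨(range (2 * m₂ + 1)).filter
      (fun c : ℕ => T ≤ (e S₀).natAbs ∧ e S₀ ∣ tv g t S₀ + 2 * a * (c : ℤ)), ?_, ?_⟩
    · rw [card_le_one]
      intro c hc c' hc'
      rw [mem_filter, mem_range] at hc hc'
      obtain ⟨hc1, hc2, hc3⟩ := hc
      obtain ⟨hc1', _, hc3'⟩ := hc'
      by_contra hne
      have h4 : e S₀ ∣ 2 * a * ((c : ℤ) - c') := by
        have h41 := dvd_sub hc3 hc3'
        have h42 : tv g t S₀ + 2 * a * (c : ℤ) - (tv g t S₀ + 2 * a * (c' : ℤ)) =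
            2 * a * ((c : ℤ) - c') := by ring
        rwa [h42] at h41
      have h5 : 2 * a * ((c : ℤ) - c') ≠ 0 := by
        refine mul_ne_zero (mul_ne_zero two_ne_zero ha0) ?_
        intro h6
        exact hne (by omega)
      have h6 := Nat.le_of_dvd (Int.natAbs_pos.mpr h5) (Int.natAbs_dvd_natAbs.mpr h4)
      rw [Int.natAbs_mul, Int.natAbs_mul] at h6
      have h7 : ((c : ℤ) - c').natAbs ≤ 2 * m₂ := by omega
      have h8 : (2 : ℤ).natAbs * a.natAbs * ((c : ℤ) - c').natAbs ≤ 2 * a.natAbs * (2 * m₂) :=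
        Nat.mul_le_mul_left _ h7
      have h9 : 2 * a.natAbs * (2 * m₂) = 4 * a.natAbs * m₂ := by ring
      omega
    · intro B hB hP
      have h3 : e (S₀ ∪ B) = e S₀ := by
        rw [he, tv_union _ t S₀ A₂ B i hA₂i hS₀ hB, if_neg (Ne.symm hxi)]
        ring
      rw [h3, tv_union g t S₀ A₂ B i hA₂i hS₀ hB, ha] at hP
      rw [mem_filter, mem_range]
      exact ⟨by have := card_le_card hB; omega, hP⟩
  have b3 : ((univ : Finset (Finset (Fin n))).filter (fun S => e S ∣ tv g t S)).card ≤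
      ((univ : Finset (Finset (Fin n))).filter (fun S => (e S).natAbs < T)).card +
      ((univ : Finset (Finset (Fin n))).filter
        (fun S => T ≤ (e S).natAbs ∧ e S ∣ tv g t S)).card := by
    refine (card_le_card ?_).trans (card_union_le _ _)
    intro S hS
    rw [mem_filter] at hS
    rw [mem_union, mem_filter, mem_filter]
    rcases Nat.lt_or_ge (e S).natAbs T with h | h
    · exact Or.inl ⟨mem_univ _, h⟩
    · exact Or.inr ⟨mem_univ _, h, hS.2⟩
  have key : ∀ (A : Finset (Fin n)) (m : ℕ), A.card = 2 * m →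
      ((A.card.choose (A.card / 2) * 2 ^ (Fintype.card (Fin n) - A.card) : ℕ) : ℝ) =
        2 ^ n * bet m := by
    intro A m hA
    have hle : 2 * m ≤ n := by
      have := card_le_univ A
      rw [Fintype.card_fin] at this
      omega
    rw [hA, Nat.mul_div_cancel_left m two_pos, Fintype.card_fin]
    unfold bet Nat.centralBinom
    push_cast
    have h3 : (2 : ℝ) ^ n = 2 ^ (n - 2 * m) * 4 ^ m := by
      rw [show (4 : ℝ) = 2 ^ 2 by norm_num, ← pow_mul, ← pow_add]
      congr 1
      omega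
    rw [h3]
    field_simp
  have c1 : (((univ : Finset (Finset (Fin n))).filter (fun S => (e S).natAbs < T)).card : ℝ) ≤
      2 * T * (2 ^ n * bet m₁) := by
    rw [← key A₁ m₁ hA₁c]
    have : ((2 * T) * (A₁.card.choose (A₁.card / 2)) * 2 ^ (Fintype.card (Fin n) - A₁.card) : ℕ) =
      2 * T * (A₁.card.choose (A₁.card / 2) * 2 ^ (Fintype.card (Fin n) - A₁.card)) := by ring
    rw [this] at b1
    exact_mod_cast b1
  have c2 : (((univ : Finset (Finset (Fin n))).filter
      (fun S => T ≤ (e S).natAbs ∧ e S ∣ tv g t S)).card : ℝ) ≤ 2 ^ n * bet m₂ := by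
    rw [← key A₂ m₂ hA₂c]
    rw [one_mul] at b2
    exact_mod_cast b2
  have c3 : (((univ : Finset (Finset (Fin n))).filter (fun S => e S ∣ tv g t S)).card : ℝ) ≤
      ((univ : Finset (Finset (Fin n))).filter (fun S => (e S).natAbs < T)).card +
      ((univ : Finset (Finset (Fin n))).filter
        (fun S => T ≤ (e S).natAbs ∧ e S ∣ tv g t S)).card := by exact_mod_cast b3
  have hTr : (T : ℝ) = 4 * (a.natAbs : ℝ) * m₂ + 1 := by rw [hT]; push_cast; ring
  rw [hTr] at c1
  nlinarith

end Pool.Agent.Q267.OV
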