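import Pool.Agent.Q267.OV.Gen2

/-!
The proportion of the words for which one signed letter count divides another one tends to zero.
-/

set_option autoImplicit false

namespace Pool.Agent.Q267.OV

open Finset Filter

variable {I : Type} [Fintype I] [DecidableEq I]

/-- the signed sum of the weights of the letters of a word -/
def sg (g : I → ℤ) (w : List (I × Bool)) : ℤ :=
  (w.map (fun b => if b.2 then g b.1 else -g b.1)).sum

/-- the word with types `t` and positive letters `S` -/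
def wd {n : ℕ} (t : Fin n → I) (S : Finset (Fin n)) : List (I × Bool) :=
  List.ofFn (fun j => (t j, decide (j ∈ S)))

omit [Fintype I] [DecidableEq I] in
theorem sg_wd (g : I → ℤ) {n : ℕ} (t : Fin n → I) (S : Finset (Fin n)) :
    sg g (wd t S) = tv g t S := by
  unfold sg wd tv
  rw [List.map_ofFn, List.sum_ofFn]
  have h : ∀ j : Fin n, ((fun b : I × Bool => if b.2 = true then g b.1 else -g b.1) ∘
      fun j => (t j, decide (j ∈ S))) j = 2 * (if j ∈ S then g (t j) else 0) - g (t j) := by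
    intro j
    by_cases hj : j ∈ S
    · simp [hj]; ring
    · simp [hj]
  rw [sum_congr rfl (fun j _ => h j), sum_sub_distrib, ← mul_sum, ← sum_filter]
  congr 3
  ext j
  simp

omit [Fintype I] [DecidableEq I] in
theorem exists_wd (n : ℕ) (w : List (I × Bool)) (h : w.length = n) :
    ∃ (t : Fin n → I) (S : Finset (Fin n)), wd t S = w := by
  subst h
  refine ⟨fun j => (w.get j).1, univ.filter (fun j => (w.get j).2 = true), ?_⟩
  unfold wd
  conv_rhs => rw [← List.ofFn_get w]
  congr 1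
  funext j
  refine Prod.ext rfl ?_
  simp

/-- the indicator of a letter -/
def ind (x y : I) : ℤ := if y = x then 1 else 0

theorem count_bad (x i : I) (hxi : x ≠ i) (g : I → ℤ) (ha0 : g i ≠ 0) (m₁ m₂ n : ℕ) :
    ({w : List (I × Bool) | w.length = n ∧ sg (ind x) w ∣ sg g w}.ncard : ℝ) ≤
      (Fintype.card I : ℝ) ^ n *
        (2 ^ n * (2 * (4 * ((g i).natAbs : ℝ) * m₂ + 1) * bet m₁ + bet m₂)) +
      2 ^ n * (2 ^ (2 * m₁) * ((Fintype.card I : ℝ) - 1 / 2) ^ n +
        2 ^ (2 * m₂) * ((Fintype.card I : ℝ) - 1 / 2) ^ n) := by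
  classical
  set C : ℝ := 2 ^ n * (2 * (4 * ((g i).natAbs : ℝ) * m₂ + 1) * bet m₁ + bet m₂) with hC
  have hC0 : 0 ≤ C := by
    have := bet_nonneg m₁
    have := bet_nonneg m₂
    positivity
  set F : (Fin n → I) → Finset (Finset (Fin n)) := fun t =>
    univ.filter (fun S => tv (ind x) t S ∣ tv g t S) with hF
  set G₁ : Finset (Fin n → I) :=
    univ.filter (fun t => (univ.filter (fun j => t j = x)).card < 2 * m₁) with hG₁
  set G₂ : Finset (Fin n → I) :=
    univ.filter (fun t => (univ.filter (fun j => t j = i)).card < 2 * m₂) with hG₂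
  have h1 : {w : List (I × Bool) | w.length = n ∧ sg (ind x) w ∣ sg g w} ⊆
      (((univ : Finset (Fin n → I)).biUnion (fun t => (F t).image (fun S => wd t S)) :
        Finset (List (I × Bool))) : Set (List (I × Bool))) := by
    rintro w ⟨hw1, hw2⟩
    obtain ⟨t, S, rfl⟩ := exists_wd n w hw1
    rw [mem_coe, mem_biUnion]
    refine ⟨t, mem_univ _, mem_image.mpr ⟨S, ?_, rfl⟩⟩
    rw [hF, mem_filter]
    rw [sg_wd, sg_wd] at hw2
    exact ⟨mem_univ _, hw2⟩
  have h2 : {w : List (I × Bool) | w.length = n ∧ sg (ind x) w ∣ sg g w}.ncard ≤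
      ∑ t : Fin n → I, (F t).card := by
    refine (Set.ncard_le_ncard h1 (Finset.finite_toSet _)).trans ?_
    rw [Set.ncard_coe_finset]
    refine card_biUnion_le.trans (sum_le_sum fun t _ => card_image_le)
  have h3 : ∀ t : Fin n → I, ((F t).card : ℝ) ≤
      C + ((if t ∈ G₁ then (2 : ℝ) ^ n else 0) + if t ∈ G₂ then (2 : ℝ) ^ n else 0) := by
    intro t
    have h4 : ((F t).card : ℝ) ≤ 2 ^ n := by
      have : (F t).card ≤ Fintype.card (Finset (Fin n)) := card_le_univ _
      rw [Fintype.card_finset, Fintype.card_fin] at this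
      exact_mod_cast this
    by_cases hg1 : t ∈ G₁
    · rw [if_pos hg1]
      have : (0 : ℝ) ≤ if t ∈ G₂ then (2 : ℝ) ^ n else 0 := by split_ifs <;> positivity
      linarith
    · by_cases hg2 : t ∈ G₂
      · rw [if_neg hg1, if_pos hg2]
        linarith
      · rw [if_neg hg1, if_neg hg2, add_zero, add_zero]
        have k1 : 2 * m₁ ≤ (univ.filter (fun j => t j = x)).card := by
          by_contra hc
          exact hg1 (by rw [hG₁, mem_filter]; exact ⟨mem_univ _, by omega⟩)
        have k2 : 2 * m₂ ≤ (univ.filter (fun j => t j = i)).card := by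
          by_contra hc
          exact hg2 (by rw [hG₂, mem_filter]; exact ⟨mem_univ _, by omega⟩)
        exact bad_signs t x i hxi g (g i) rfl ha0 m₁ m₂ k1 k2
  have h5 : (∑ t : Fin n → I, ((F t).card : ℝ)) ≤
      ∑ t : Fin n → I, (C + ((if t ∈ G₁ then (2 : ℝ) ^ n else 0) +
        if t ∈ G₂ then (2 : ℝ) ^ n else 0)) := sum_le_sum fun t _ => h3 t
  rw [sum_add_distrib, sum_add_distrib, sum_const, card_univ, Fintype.card_fun, Fintype.card_fin,
    nsmul_eq_mul, sum_ite_mem, sum_ite_mem, univ_inter, univ_inter, sum_const, sum_const,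
    nsmul_eq_mul, nsmul_eq_mul] at h5
  have h6 := few_types x (2 * m₁) n
  have h7 := few_types i (2 * m₂) n
  have h8 : ({w : List (I × Bool) | w.length = n ∧ sg (ind x) w ∣ sg g w}.ncard : ℝ) ≤
      ∑ t : Fin n → I, ((F t).card : ℝ) := by exact_mod_cast h2
  have h9 : (G₁.card : ℝ) * 2 ^ n ≤ 2 ^ n * (2 ^ (2 * m₁) * ((Fintype.card I : ℝ) - 1 / 2) ^ n) := by
    rw [mul_comm]
    exact mul_le_mul_of_nonneg_left h6 (by positivity)
  have h10 : (G₂.card : ℝ) * 2 ^ n ≤ 2 ^ n * (2 ^ (2 * m₂) * ((Fintype.card I : ℝ) - 1 / 2) ^ n) := by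
    rw [mul_comm]
    exact mul_le_mul_of_nonneg_left h7 (by positivity)
  push_cast at h5
  refine h8.trans (h5.trans ?_)
  linarith

theorem bet_tendsto : Tendsto bet atTop (nhds 0) := by
  have h1 : Tendsto (fun m : ℕ => 1 / √(2 * (m : ℝ) + 1)) atTop (nhds 0) := by
    have h2 : Tendsto (fun m : ℕ => 2 * (m : ℝ) + 1) atTop atTop :=
      tendsto_atTop_add_const_right _ _
        (tendsto_natCast_atTop_atTop.const_mul_atTop two_pos)
    have h3 := (Real.tendsto_sqrt_atTop.comp h2)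
    refine (tendsto_inv_atTop_zero.comp h3).congr fun m => ?_
    simp [Function.comp, one_div]
  exact squeeze_zero bet_nonneg bet_le h1

theorem tendsto_bad (x i : I) (hxi : x ≠ i) (g : I → ℤ) (ha0 : g i ≠ 0) :
    Tendsto (fun n : ℕ =>
      ({w : List (I × Bool) | w.length = n ∧ sg (ind x) w ∣ sg g w}.ncard : ℝ) /
        (2 * (Fintype.card I : ℝ)) ^ n) atTop (nhds 0) := by
  have hK : (1 : ℝ) ≤ Fintype.card I := by
    have : 0 < Fintype.card I := Fintype.card_pos_iff.mpr ⟨x⟩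
    exact_mod_cast this
  rw [tendsto_order]
  refine ⟨fun b hb => Eventually.of_forall fun n => hb.trans_le (by positivity), fun ε hε => ?_⟩
  obtain ⟨m₂, hm₂⟩ := (bet_tendsto.eventually_lt_const (show (0 : ℝ) < ε / 4 by positivity)).exists
  set T : ℝ := 2 * (4 * ((g i).natAbs : ℝ) * m₂ + 1) with hT
  have hT0 : 0 < T := by positivity
  obtain ⟨m₁, hm₁⟩ := (bet_tendsto.eventually_lt_const
    (show (0 : ℝ) < ε / 4 / T by positivity)).exists
  have hm₁' : T * bet m₁ < ε / 4 := by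
    rw [lt_div_iff₀ hT0] at hm₁
    linarith
  set ρ : ℝ := ((Fintype.card I : ℝ) - 1 / 2) / Fintype.card I with hρ
  have hρ0 : 0 ≤ ρ := div_nonneg (by linarith) (by linarith)
  have hρ1 : ρ < 1 := (div_lt_one (by linarith)).mpr (by linarith)
  have h1 : Tendsto (fun n : ℕ => ((2 : ℝ) ^ (2 * m₁) + 2 ^ (2 * m₂)) * ρ ^ n) atTop (nhds 0) := by
    have := (tendsto_pow_atTop_nhds_zero_of_lt_one hρ0 hρ1).const_mul
      ((2 : ℝ) ^ (2 * m₁) + 2 ^ (2 * m₂))
    rwa [mul_zero] at this
  filter_upwards [h1.eventually_lt_const (show (0 : ℝ) < ε / 4 by positivity)] with n hn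
  have h2 := count_bad x i hxi g ha0 m₁ m₂ n
  have hpos : (0 : ℝ) < (2 * (Fintype.card I : ℝ)) ^ n := by positivity
  rw [div_lt_iff₀ hpos]
  refine h2.trans_lt ?_
  have h3 : (2 : ℝ) ^ n * (2 ^ (2 * m₁) * ((Fintype.card I : ℝ) - 1 / 2) ^ n +
        2 ^ (2 * m₂) * ((Fintype.card I : ℝ) - 1 / 2) ^ n) =
      ((2 : ℝ) ^ (2 * m₁) + 2 ^ (2 * m₂)) * ρ ^ n * (2 * (Fintype.card I : ℝ)) ^ n := by
    rw [hρ, div_pow, mul_pow]
    field_simp
  rw [h3, ← hT]
  have h4 : (Fintype.card I : ℝ) ^ n * (2 ^ n * (T * bet m₁ + bet m₂)) =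
      (T * bet m₁ + bet m₂) * (2 * (Fintype.card I : ℝ)) ^ n := by
    rw [mul_pow]; ring
  rw [h4, ← add_mul]
  refine mul_lt_mul_of_pos_right ?_ hpos
  linarith

end Pool.Agent.Q267.OV
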