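import Pool.Agent.Q267.OV.Gen3

/-!
A computable sufficient condition for the unsolvability of one-variable equations over one-relator
groups with at least two generators.
-/

set_option autoImplicit false

namespace Pool.Agent.Q267.OV

section prim

variable {α : Type} [Primcodable α]

/-- differences of two primitive recursive functions -/
def PI (f : α → ℤ) : Prop :=
  ∃ p q : α → ℕ, Primrec p ∧ Primrec q ∧ ∀ a, f a = (p a : ℤ) - q a

theorem PI.mul {f g : α → ℤ} (hf : PI f) (hg : PI g) : PI (fun a => f a * g a) := by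
  obtain ⟨p, q, hp, hq, h⟩ := hf
  obtain ⟨p', q', hp', hq', h'⟩ := hg
  refine ⟨fun a => p a * p' a + q a * q' a, fun a => p a * q' a + q a * p' a,
    Primrec.nat_add.comp (Primrec.nat_mul.comp hp hp') (Primrec.nat_mul.comp hq hq'),
    Primrec.nat_add.comp (Primrec.nat_mul.comp hp hq') (Primrec.nat_mul.comp hq hp'), ?_⟩
  intro a
  show f a * g a = _
  rw [h, h']
  push_cast
  ring

theorem PI.add {f g : α → ℤ} (hf : PI f) (hg : PI g) : PI (fun a => f a + g a) := by
  obtain ⟨p, q, hp, hq, h⟩ := hf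
  obtain ⟨p', q', hp', hq', h'⟩ := hg
  refine ⟨fun a => p a + p' a, fun a => q a + q' a, Primrec.nat_add.comp hp hp',
    Primrec.nat_add.comp hq hq', ?_⟩
  intro a
  show f a + g a = _
  rw [h, h']
  push_cast
  ring

theorem PI.neg {f : α → ℤ} (hf : PI f) : PI (fun a => - f a) := by
  obtain ⟨p, q, hp, hq, h⟩ := hf
  refine ⟨q, p, hq, hp, fun a => ?_⟩
  have := h a
  show -f a = _
  omega

theorem PI.cond {f g : α → ℤ} {c : α → Bool} (hc : Primrec c) (hf : PI f) (hg : PI g) :
    PI (fun a => bif c a then f a else g a) := by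
  obtain ⟨p, q, hp, hq, h⟩ := hf
  obtain ⟨p', q', hp', hq', h'⟩ := hg
  refine ⟨fun a => bif c a then p a else p' a, fun a => bif c a then q a else q' a,
    Primrec.cond hc hp hp', Primrec.cond hc hq hq', ?_⟩
  intro a
  cases hca : c a
  · simp [hca, h']
  · simp [hca, h]

theorem PI.comp {β : Type} [Primcodable β] {f : α → ℤ} (hf : PI f) {g : β → α} (hg : Primrec g) :
    PI (fun b => f (g b)) := by
  obtain ⟨p, q, hp, hq, h⟩ := hf
  exact ⟨fun b => p (g b), fun b => q (g b), hp.comp hg, hq.comp hg, fun b => h (g b)⟩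

theorem PI.const (z : ℤ) : PI (fun _ : α => z) := by
  refine ⟨fun _ => z.toNat, fun _ => (-z).toNat, Primrec.const _, Primrec.const _, ?_⟩
  intro a
  exact (Int.toNat_sub_toNat_neg z).symm

theorem PI.natAbs {f : α → ℤ} (hf : PI f) : Primrec (fun a => (f a).natAbs) := by
  obtain ⟨p, q, hp, hq, h⟩ := hf
  refine (Primrec.nat_add.comp (Primrec.nat_sub.comp hp hq) (Primrec.nat_sub.comp hq hp)).of_eq ?_
  intro a
  rw [h]
  omega

/-- the sum of natural weights -/
def nsum {β : Type} (h : β → ℕ) (w : List β) : ℕ := w.foldl (fun s b => s + h b) 0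

theorem nsum_eq {β : Type} (h : β → ℕ) (w : List β) : nsum h w = (w.map h).sum := by
  unfold nsum
  have : ∀ (w : List β) (s : ℕ), w.foldl (fun s b => s + h b) s = s + (w.map h).sum := by
    intro w
    induction w with
    | nil => intro s; simp
    | cons b w ih => intro s; simp [ih, add_assoc]
  rw [this, zero_add]

theorem nsum_prim {β : Type} [Primcodable β] [Finite β] (h : β → ℕ) : Primrec (nsum h) := by
  refine Primrec.list_foldl (f := fun w : List β => w) (g := fun _ => 0)
    (h := fun _ p => p.1 + h p.2) Primrec.id (Primrec.const 0) ?_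
  exact Primrec.nat_add.comp (Primrec.fst.comp Primrec.snd)
    ((Primrec.dom_finite h).comp (Primrec.snd.comp Primrec.snd))

theorem PI.sg {I : Type} [Primcodable I] [Finite I] (g : I → ℤ) : PI (fun w => sg g w) := by
  refine ⟨nsum (fun b : I × Bool => (if b.2 then g b.1 else -g b.1).toNat),
    nsum (fun b : I × Bool => (-(if b.2 then g b.1 else -g b.1)).toNat),
    nsum_prim _, nsum_prim _, ?_⟩
  intro w
  show OV.sg g w = _
  rw [nsum_eq, nsum_eq]
  unfold OV.sg
  induction w with
  | nil => simp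
  | cons b w ih =>
    rw [List.map_cons, List.sum_cons, List.map_cons, List.sum_cons, List.map_cons, List.sum_cons,
      ih]
    push_cast
    have := Int.toNat_sub_toNat_neg (if b.2 = true then g b.1 else -g b.1)
    push_cast at this
    linarith

end prim

section alg

theorem sg_lin {I : Type} (g h : I → ℤ) (s t : ℤ) (w : List (I × Bool)) :
    sg (fun i => s * g i + t * h i) w = s * sg g w + t * sg h w := by
  unfold sg
  induction w with
  | nil => simp
  | cons b w ih =>
    rw [List.map_cons, List.sum_cons, List.map_cons, List.sum_cons, List.map_cons, List.sum_cons,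
      ih]
    split_ifs <;> ring

theorem lift_sg {I : Type} {G : Type*} [Group G] (F : I → G) (ψ : G →* Multiplicative ℤ)
    (w : List (I × Bool)) :
    ψ (FreeGroup.lift F (FreeGroup.mk w)) =
      Multiplicative.ofAdd (sg (fun i => Multiplicative.toAdd (ψ (F i))) w) := by
  rw [FreeGroup.lift_mk]
  unfold sg
  induction w with
  | nil => simp
  | cons b w ih =>
    rw [List.map_cons, List.prod_cons, map_mul, ih, List.map_cons, List.sum_cons, ofAdd_add]
    congr 1
    obtain ⟨i, b⟩ := b
    cases b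
    · simp
    · simp

/-- the weight of the first generator -/
def a0 (u v : ℤ) : ℤ := bif (u.natAbs == 0) && (v.natAbs == 0) then 1 else v

theorem a0_spec (u v : ℤ) : a0 u v * u + (-u) * v = 0 ∧ (a0 u v ≠ 0 ∨ -u ≠ 0) := by
  unfold a0
  by_cases hu : u = 0
  · by_cases hv : v = 0
    · simp [hu, hv]
    · have h1 : (v.natAbs == 0) = false := by simp [hv]
      rw [h1, Bool.and_false, cond_false]
      exact ⟨by ring, Or.inl hv⟩
  · have h1 : (u.natAbs == 0) = false := by simp [hu]
    rw [h1, Bool.false_and, cond_false]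
    exact ⟨by ring, Or.inr (neg_ne_zero.mpr hu)⟩

/-- the weights of the letters of the equation for a given relator -/
def wt {k : ℕ} (i j : Fin k) (ρ : List (Fin k × Bool)) : Fin k ⊕ Unit → ℤ :=
  fun l => a0 (sg (ind i) ρ) (sg (ind j) ρ) * ind (Sum.inl i) l +
    (-(sg (ind i) ρ)) * ind (Sum.inl j) l

/-- the test: the count of the variable does not divide the weighted count -/
def test {k : ℕ} (i j : Fin k) (ρ : List (Fin k × Bool)) (w : List ((Fin k ⊕ Unit) × Bool)) :
    Bool :=
  !((sg (wt i j ρ) w).natAbs % (sg (ind (Sum.inr ())) w).natAbs == 0)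

theorem test_false {k : ℕ} (i j : Fin k) (ρ : List (Fin k × Bool))
    (w : List ((Fin k ⊕ Unit) × Bool)) :
    test i j ρ w = false ↔ sg (ind (Sum.inr ())) w ∣ sg (wt i j ρ) w := by
  unfold test
  rw [Bool.not_eq_false', beq_iff_eq, ← Nat.dvd_iff_mod_eq_zero, Int.natAbs_dvd_natAbs]

theorem test_comp {k : ℕ} (i j : Fin k) : Computable₂ (test i j) := by
  refine Primrec.to_comp ?_
  have h1 : PI (fun p : List (Fin k × Bool) × List ((Fin k ⊕ Unit) × Bool) =>
      sg (ind (I := Fin k) i) p.1) := (PI.sg (ind i)).comp Primrec.fst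
  have h2 : PI (fun p : List (Fin k × Bool) × List ((Fin k ⊕ Unit) × Bool) =>
      sg (ind (I := Fin k) j) p.1) := (PI.sg (ind j)).comp Primrec.fst
  have h3 : PI (fun p : List (Fin k × Bool) × List ((Fin k ⊕ Unit) × Bool) =>
      a0 (sg (ind (I := Fin k) i) p.1) (sg (ind (I := Fin k) j) p.1)) := by
    refine PI.cond ?_ (PI.const 1) h2
    exact Primrec.and.comp (Primrec.beq.comp h1.natAbs (Primrec.const 0))
      (Primrec.beq.comp h2.natAbs (Primrec.const 0))
  have h4 : PI (fun p : List (Fin k × Bool) × List ((Fin k ⊕ Unit) × Bool) =>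
      sg (wt i j p.1) p.2) := by
    have h5 := (h3.mul ((PI.sg (ind (Sum.inl i : Fin k ⊕ Unit))).comp Primrec.snd)).add
      (h1.neg.mul ((PI.sg (ind (Sum.inl j : Fin k ⊕ Unit))).comp Primrec.snd))
    have h6 : (fun p : List (Fin k × Bool) × List ((Fin k ⊕ Unit) × Bool) =>
      sg (wt i j p.1) p.2) = _ := funext fun p => sg_lin _ _ _ _ _
    rw [h6]
    exact h5
  exact Primrec.not.comp (Primrec.beq.comp (Primrec.nat_mod.comp h4.natAbs
    ((PI.sg (ind (Sum.inr () : Fin k ⊕ Unit))).comp Primrec.snd).natAbs) (Primrec.const 0))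

/-- an equation which has a solution passes the divisibility test -/
theorem test_sol {k : ℕ} (i j : Fin k) (ρ : List (Fin k × Bool))
    (w : List ((Fin k ⊕ Unit) × Bool))
    (g : PresentedGroup ({FreeGroup.mk ρ} : Set (FreeGroup (Fin k))))
    (hg : FreeGroup.lift (Sum.elim (fun i => (PresentedGroup.of i :
      PresentedGroup ({FreeGroup.mk ρ} : Set (FreeGroup (Fin k))))) (fun _ : Unit => g))
      (FreeGroup.mk w) = 1) : sg (ind (Sum.inr ())) w ∣ sg (wt i j ρ) w := by
  set a : Fin k → ℤ := fun l => a0 (sg (ind i) ρ) (sg (ind j) ρ) * ind i l +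
    (-(sg (ind i) ρ)) * ind j l with ha
  have h1 : ∀ x ∈ ({FreeGroup.mk ρ} : Set (FreeGroup (Fin k))),
      FreeGroup.lift (fun l => Multiplicative.ofAdd (a l)) x = 1 := by
    intro x hx
    rw [Set.mem_singleton_iff] at hx
    subst hx
    have h2 := lift_sg (fun l => Multiplicative.ofAdd (a l)) (MonoidHom.id _) ρ
    simp only [MonoidHom.id_apply, toAdd_ofAdd] at h2
    rw [h2, ha, sg_lin, (a0_spec _ _).1, ofAdd_zero]
  set ψ := PresentedGroup.toGroup h1 with hψ
  have h2 := lift_sg (Sum.elim (fun i => (PresentedGroup.of i :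
      PresentedGroup ({FreeGroup.mk ρ} : Set (FreeGroup (Fin k))))) (fun _ : Unit => g)) ψ w
  rw [hg, map_one] at h2
  have h3 : (fun l => Multiplicative.toAdd (ψ ((Sum.elim (fun i => (PresentedGroup.of i :
      PresentedGroup ({FreeGroup.mk ρ} : Set (FreeGroup (Fin k)))))
      (fun _ : Unit => g)) l))) = fun l => 1 * wt i j ρ l +
        Multiplicative.toAdd (ψ g) * ind (Sum.inr ()) l := by
    funext l
    cases l with
    | inl l =>
      simp only [Sum.elim_inl, hψ, PresentedGroup.toGroup.of, toAdd_ofAdd, wt, ha, ind,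
        Sum.inl.injEq, reduceCtorEq, if_false, mul_zero, add_zero, one_mul]
    | inr l =>
      simp [wt, ind]
  rw [h3, sg_lin, one_mul] at h2
  have h4 : sg (wt i j ρ) w + Multiplicative.toAdd (ψ g) * sg (ind (Sum.inr ())) w = 0 := by
    have := congrArg Multiplicative.toAdd h2
    rw [toAdd_one, toAdd_ofAdd] at this
    exact this.symm
  exact ⟨-Multiplicative.toAdd (ψ g), by linarith⟩

theorem wt_ne {k : ℕ} (i j : Fin k) (hij : i ≠ j) (ρ : List (Fin k × Bool)) :
    ∃ l : Fin k, wt i j ρ (Sum.inl l) ≠ 0 := by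
  rcases (a0_spec (sg (ind i) ρ) (sg (ind j) ρ)).2 with h | h
  · refine ⟨i, ?_⟩
    simp only [wt, ind, Sum.inl.injEq, if_true, if_neg hij, mul_one, mul_zero, add_zero]
    exact h
  · refine ⟨j, ?_⟩
    simp only [wt, ind, Sum.inl.injEq, if_true, if_neg hij.symm, mul_one, mul_zero, zero_add]
    exact h

theorem test_rare {k : ℕ} (i j : Fin k) (hij : i ≠ j) (ρ : List (Fin k × Bool)) :
    Filter.Tendsto (fun n : ℕ => ({w : List ((Fin k ⊕ Unit) × Bool) | w.length = n ∧
      test i j ρ w = false}.ncard : ℝ) / (2 * k + 2) ^ n) Filter.atTop (nhds 0) := by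
  obtain ⟨l, hl⟩ := wt_ne i j hij ρ
  have h := tendsto_bad (Sum.inr () : Fin k ⊕ Unit) (Sum.inl l) (by simp) (wt i j ρ) hl
  have h1 : (2 * (Fintype.card (Fin k ⊕ Unit) : ℝ)) = 2 * k + 2 := by
    rw [Fintype.card_sum, Fintype.card_fin, Fintype.card_unit]
    push_cast
    ring
  rw [h1] at h
  refine h.congr fun n => ?_
  congr 3
  ext w
  exact and_congr_right fun _ => (test_false i j ρ w).symm

end alg

end Pool.Agent.Q267.OV
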