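import Pool.Agent.Q267.OV.Words

/-!
Few failures suffice: general form.
-/

set_option autoImplicit false

namespace Pool.Agent.Q267.OV

open Filter

theorem exists_exp {q d c : ℝ} (hd : 0 < d) (hdq : d < q) (hc : 0 < c) :
    ∃ A : ℕ, 1 ≤ A ∧ ∀ l N : ℕ, 2 * (c ^ l * d ^ (A * (l + 1) + N)) < q ^ (A * (l + 1) + N) := by
  have h1 : Tendsto (fun A : ℕ => (q / d) ^ A) atTop atTop :=
    tendsto_pow_atTop_atTop_of_one_lt ((one_lt_div hd).mpr hdq)
  obtain ⟨A, hA1, hA2⟩ := ((h1.eventually_ge_atTop (2 * (1 + c))).and (eventually_ge_atTop 1)).exists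
  refine ⟨A, hA2, fun l N => ?_⟩
  have hq : 0 < q := hd.trans hdq
  have h2 : (2 * (1 + c)) ^ (l + 1) ≤ (q / d) ^ (A * (l + 1)) := by
    rw [pow_mul]
    exact pow_le_pow_left₀ (by positivity) hA1 _
  have h3 : (2 * (1 + c)) ^ (l + 1) * d ^ (A * (l + 1)) ≤ q ^ (A * (l + 1)) := by
    rw [div_pow, le_div_iff₀ (by positivity)] at h2
    exact h2
  have h4 : d ^ N ≤ q ^ N := pow_le_pow_left₀ hd.le hdq.le _
  have h5 : 2 * c ^ l < (2 * (1 + c)) ^ (l + 1) := by
    have e1 : c ^ l ≤ (1 + c) ^ l := pow_le_pow_left₀ hc.le (by linarith) _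
    have e2 : (1 + c) ^ l * 1 < (1 + c) ^ l * (1 + c) := by
      have : 0 < (1 + c) ^ l := by positivity
      nlinarith
    have e3 : (1 : ℝ) ≤ 2 ^ l := one_le_pow₀ (by norm_num)
    have e4 : (2 * (1 + c)) ^ (l + 1) = 2 * 2 ^ l * ((1 + c) ^ l * (1 + c)) := by
      rw [mul_pow, pow_succ, pow_succ]
      ring
    rw [e4]
    have e5 : 0 < (1 + c) ^ l * (1 + c) := by positivity
    nlinarith
  calc 2 * (c ^ l * d ^ (A * (l + 1) + N)) = (2 * c ^ l) * (d ^ (A * (l + 1)) * d ^ N) := by
        rw [pow_add]; ring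
    _ < (2 * (1 + c)) ^ (l + 1) * (d ^ (A * (l + 1)) * d ^ N) :=
        mul_lt_mul_of_pos_right h5 (by positivity)
    _ = ((2 * (1 + c)) ^ (l + 1) * d ^ (A * (l + 1))) * d ^ N := by ring
    _ ≤ q ^ (A * (l + 1)) * q ^ N := mul_le_mul h3 h4 (by positivity) (by positivity)
    _ = q ^ (A * (l + 1) + N) := by rw [pow_add]

variable {L : Type} [Fintype L] [DecidableEq L] [Primcodable L]

/-- the failures of `φ` in length `n` -/
def Fl (S : List L → Prop) (φ : List L →. Bool) (n : ℕ) : Set (List L) :=
  {w | w.length = n ∧ ∀ b ∈ φ w, ¬ (b = true ↔ S w)}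

omit [DecidableEq L] in
theorem few (S Z : List L → Prop) (hZc : ComputablePred Z)
    (hZ : ∀ z z', Z z → Z z' → Z (z ++ z')) (hS : ∀ w z, Z z → (S (w ++ z) ↔ S w))
    (φ : List L →. Bool) (hφ : Partrec φ) (c : ℝ) (hc : 0 ≤ c)
    (hn : ∃ n, 0 < n ∧ c ^ n < ({z : List L | z.length = n ∧ Z z}.ncard : ℝ))
    (hF : ∀ᶠ n : ℕ in atTop, ((Fl S φ n).ncard : ℝ) ≤ c ^ n) : ComputablePred S := by
  classical
  obtain ⟨n, hn0, hn1⟩ := hn
  set q : ℕ := {z : List L | z.length = n ∧ Z z}.ncard with hq
  -- a positive rate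
  obtain ⟨c', hc'0, hcc', hc'q⟩ : ∃ c' : ℝ, 0 < c' ∧ c ≤ c' ∧ c' ^ n < q := by
    rcases hc.eq_or_lt with h | h
    · refine ⟨1 / 2, by norm_num, by rw [← h]; norm_num, ?_⟩
      have h1 : (0 : ℝ) < q := by
        have := hn1
        rw [← h, zero_pow hn0.ne'] at this
        exact this
      have h2 : (1 : ℝ) ≤ q := by exact_mod_cast (Nat.one_le_iff_ne_zero.mpr (by
        intro h3
        rw [h3] at h1
        simp at h1))
      exact (pow_lt_one₀ (by norm_num) (by norm_num) hn0.ne').trans_le h2
    · exact ⟨c, h, le_rfl, hn1⟩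
  obtain ⟨N, hN⟩ := eventually_atTop.mp hF
  obtain ⟨A, hA, hexp⟩ := exists_exp (q := q) (d := c' ^ n) (c := c') (by positivity) hc'q hc'0
  obtain ⟨pd, hpd⟩ := hZc
  set p : List L → Bool := fun z => @decide (Z z) (pd z) with hp
  have hpZ : ∀ z, p z = true ↔ Z z := fun z => by simp [hp]
  -- the voters
  set J : List L → ℕ := fun w => A * (w.length + 1) + N with hJ
  set V : List L → List (List L) := fun w =>
    ((words L (n * J w)).filter p).map (fun z => w ++ z) with hV
  have hVc : Computable V := by
    have e1 : Primrec (fun w : List L => n * J w) :=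
      Primrec.nat_mul.comp (Primrec.const n) (Primrec.nat_add.comp (Primrec.nat_mul.comp
        (Primrec.const A) (Primrec.succ.comp Primrec.list_length)) (Primrec.const N))
    have e2 : Computable (fun w : List L => (words L (n * J w)).filter p) :=
      (computable_filter hpd).comp ((words_prim.comp e1).to_comp)
    have e3 : Primrec (fun a : List L × List (List L) => a.2.map (fun z => a.1 ++ z)) :=
      Primrec.list_map Primrec.snd
        ((Primrec.list_append.comp (Primrec.fst.comp Primrec.fst) Primrec.snd).to₂)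
    exact e3.to_comp.comp (Computable.id.pair e2)
  obtain ⟨ψ, hψ, hmaj⟩ := Pool.Agent.Q298.DF.majority hφ hVc
  have hval : ∀ w, decide (S w) ∈ ψ w := by
    intro w
    refine hmaj w (decide (S w)) ?_
    have hJ1 : 1 ≤ J w := by
      have : 1 * 1 ≤ A * (w.length + 1) := Nat.mul_le_mul hA (by omega)
      simp only [hJ]
      omega
    have h1 : (V w).length = {z : List L | z.length = n * J w ∧ Z z}.ncard := by
      rw [hV]
      simp only
      rw [List.length_map, ncard_words]
      congr 1
      ext z
      simp [hpZ]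
    have h2 : q ^ (J w) ≤ (V w).length := by
      rw [h1]
      have := pow_le Z hZ n (J w - 1)
      rw [Nat.sub_add_cancel hJ1] at this
      exact this
    have hnd : (V w).Nodup := by
      rw [hV]
      exact ((nodup_words _).filter _).map (fun a b h => List.append_cancel_left h)
    have h3 : ((V w).filter (fun x => decide (¬ decide (S w) ∈ φ x))).length ≤
        (Fl S φ (w.length + n * J w)).ncard := by
      rw [← List.toFinset_card_of_nodup (hnd.filter _), ← Set.ncard_coe_finset]
      refine Set.ncard_le_ncard (fun x hx => ?_) ?_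
      · rw [Finset.mem_coe, List.mem_toFinset, List.mem_filter] at hx
        obtain ⟨hx1, hx2⟩ := hx
        rw [hV] at hx1
        simp only [List.mem_map, List.mem_filter, mem_words] at hx1
        obtain ⟨z, ⟨hz1, hz2⟩, rfl⟩ := hx1
        refine ⟨by simp [hz1], fun b hb hbb => ?_⟩
        rw [hS w z ((hpZ z).mp hz2)] at hbb
        have : decide (S w) = b := by
          by_cases h : S w
          · simp [h, hbb.mpr h]
          · have : b = false := by
              cases b
              · rfl
              · exact absurd (hbb.mp rfl) h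
            simp [h, this]
        rw [this] at hx2
        simp [hb] at hx2
      · exact finite_len (L := L) _ _
    have h4 : ((Fl S φ (w.length + n * J w)).ncard : ℝ) ≤ c' ^ (w.length + n * J w) := by
      refine (hN _ ?_).trans (pow_le_pow_left₀ hc hcc' _)
      have : 1 * J w ≤ n * J w := Nat.mul_le_mul hn0 le_rfl
      simp only [hJ] at this ⊢
      omega
    have h5 := hexp w.length N
    have h6 : c' ^ (w.length + n * J w) = c' ^ w.length * (c' ^ n) ^ (A * (w.length + 1) + N) := by
      rw [pow_add, pow_mul]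
    rw [h6] at h4
    have h7 : ((q : ℝ)) ^ (A * (w.length + 1) + N) ≤ ((V w).length : ℝ) := by
      exact_mod_cast h2
    have h8 : (2 * ((V w).filter (fun x => decide (¬ decide (S w) ∈ φ x))).length : ℝ) <
        ((V w).length : ℝ) := by
      have h9 : (((V w).filter (fun x => decide (¬ decide (S w) ∈ φ x))).length : ℝ) ≤
          ((Fl S φ (w.length + n * J w)).ncard : ℝ) := by exact_mod_cast h3
      linarith
    exact_mod_cast h8
  refine ⟨fun w => Classical.propDecidable _, ?_⟩
  have h9 : Partrec (fun w : List L => (Part.some (decide (S w)) : Part Bool)) :=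
    hψ.of_eq (fun w => Part.eq_some_iff.mpr (hval w))
  exact h9

/-- failures among the words `w z`, `z` of length `n` with `Z z` -/
def Flw (S Z : List L → Prop) (φ : List L →. Bool) (w : List L) (n : ℕ) : Set (List L) :=
  {z | z.length = n ∧ Z z ∧ ∀ b ∈ φ (w ++ z), ¬ (b = true ↔ S w)}

omit [DecidableEq L] in
theorem fewc (S Z : List L → Prop) (hZc : ComputablePred Z)
    (hZ : ∀ z z', Z z → Z z' → Z (z ++ z'))
    (φ : List L →. Bool) (hφ : Partrec φ) (c : ℝ) (hc : 0 ≤ c)
    (hn : ∃ n, 0 < n ∧ c ^ n < ({z : List L | z.length = n ∧ Z z}.ncard : ℝ))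
    (h : List L → ℕ) (hh : Computable h)
    (hF : ∀ w n, h w ≤ n → ((Flw S Z φ w n).ncard : ℝ) ≤ c ^ n) : ComputablePred S := by
  classical
  obtain ⟨n, hn0, hn1⟩ := hn
  set q : ℕ := {z : List L | z.length = n ∧ Z z}.ncard with hq
  obtain ⟨c', hc'0, hcc', hc'q⟩ : ∃ c' : ℝ, 0 < c' ∧ c ≤ c' ∧ c' ^ n < q := by
    rcases hc.eq_or_lt with h | h
    · refine ⟨1 / 2, by norm_num, by rw [← h]; norm_num, ?_⟩
      have h1 : (0 : ℝ) < q := by
        have := hn1
        rw [← h, zero_pow hn0.ne'] at this
        exact this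
      have h2 : (1 : ℝ) ≤ q := by exact_mod_cast (Nat.one_le_iff_ne_zero.mpr (by
        intro h3
        rw [h3] at h1
        simp at h1))
      exact (pow_lt_one₀ (by norm_num) (by norm_num) hn0.ne').trans_le h2
    · exact ⟨c, h, le_rfl, hn1⟩
  obtain ⟨A, hA, hexp⟩ := exists_exp (q := q) (d := c' ^ n) (c := 1) (by positivity) hc'q one_pos
  obtain ⟨pd, hpd⟩ := hZc
  set p : List L → Bool := fun z => @decide (Z z) (pd z) with hp
  have hpZ : ∀ z, p z = true ↔ Z z := fun z => by simp [hp]
  set J : List L → ℕ := fun w => A * (0 + 1) + h w with hJ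
  set V : List L → List (List L) := fun w =>
    ((words L (n * J w)).filter p).map (fun z => w ++ z) with hV
  have hVc : Computable V := by
    have e1 : Computable (fun w : List L => n * J w) :=
      Primrec.nat_mul.to_comp.comp (Computable.const n) (Primrec.nat_add.to_comp.comp
        (Computable.const (A * (0 + 1))) hh)
    have e2 : Computable (fun w : List L => (words L (n * J w)).filter p) :=
      (computable_filter hpd).comp (words_prim.to_comp.comp e1)
    have e3 : Primrec (fun a : List L × List (List L) => a.2.map (fun z => a.1 ++ z)) :=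
      Primrec.list_map Primrec.snd
        ((Primrec.list_append.comp (Primrec.fst.comp Primrec.fst) Primrec.snd).to₂)
    exact e3.to_comp.comp (Computable.id.pair e2)
  obtain ⟨ψ, hψ, hmaj⟩ := Pool.Agent.Q298.DF.majority hφ hVc
  have hval : ∀ w, decide (S w) ∈ ψ w := by
    intro w
    refine hmaj w (decide (S w)) ?_
    have hJ1 : 1 ≤ J w := by
      simp only [hJ]
      omega
    have h1 : (V w).length = {z : List L | z.length = n * J w ∧ Z z}.ncard := by
      rw [hV]
      simp only
      rw [List.length_map, ncard_words]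
      congr 1
      ext z
      simp [hpZ]
    have h2 : q ^ (J w) ≤ (V w).length := by
      rw [h1]
      have := pow_le Z hZ n (J w - 1)
      rw [Nat.sub_add_cancel hJ1] at this
      exact this
    have h3 : ((V w).filter (fun x => decide (¬ decide (S w) ∈ φ x))).length ≤
        (Flw S Z φ w (n * J w)).ncard := by
      rw [hV]
      simp only
      rw [List.filter_map, List.length_map,
        ← List.toFinset_card_of_nodup (((nodup_words _).filter _).filter _),
        ← Set.ncard_coe_finset]
      refine Set.ncard_le_ncard (fun z hx => ?_) ?_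
      · rw [Finset.mem_coe, List.mem_toFinset, List.mem_filter, List.mem_filter, mem_words] at hx
        obtain ⟨⟨hz1, hz2⟩, hx2⟩ := hx
        refine ⟨hz1, (hpZ z).mp hz2, fun b hb hbb => ?_⟩
        have : decide (S w) = b := by
          by_cases h : S w
          · simp [h, hbb.mpr h]
          · have : b = false := by
              cases b
              · rfl
              · exact absurd (hbb.mp rfl) h
            simp [h, this]
        simp only [Function.comp_apply, this] at hx2
        simp [hb] at hx2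
      · exact finite_len (L := L) _ _
    have h4 : ((Flw S Z φ w (n * J w)).ncard : ℝ) ≤ c' ^ (n * J w) := by
      refine (hF w _ ?_).trans (pow_le_pow_left₀ hc hcc' _)
      have : 1 * J w ≤ n * J w := Nat.mul_le_mul hn0 le_rfl
      simp only [hJ] at this ⊢
      omega
    have h5 := hexp 0 (h w)
    rw [one_pow, one_mul] at h5
    rw [pow_mul] at h4
    have h7 : ((q : ℝ)) ^ (A * (0 + 1) + h w) ≤ ((V w).length : ℝ) := by
      exact_mod_cast h2
    have h8 : (2 * ((V w).filter (fun x => decide (¬ decide (S w) ∈ φ x))).length : ℝ) <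
        ((V w).length : ℝ) := by
      have h9 : (((V w).filter (fun x => decide (¬ decide (S w) ∈ φ x))).length : ℝ) ≤
          ((Flw S Z φ w (n * J w)).ncard : ℝ) := by exact_mod_cast h3
      simp only [hJ] at h4 h9 ⊢
      linarith
    exact_mod_cast h8
  refine ⟨fun w => Classical.propDecidable _, ?_⟩
  have h9 : Partrec (fun w : List L => (Part.some (decide (S w)) : Part Bool)) :=
    hψ.of_eq (fun w => Part.eq_some_iff.mpr (hval w))
  exact h9

omit [Fintype L] [DecidableEq L] in
theorem few_of' (S Z : List L → Prop) (hS : ∀ w z, Z z → (S (w ++ z) ↔ S w))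
    (h : ComputablePred S) (c : ℝ) (hc : 0 ≤ c) :
    ∃ (φ : List L →. Bool) (h : List L → ℕ), Partrec φ ∧ Computable h ∧
      ∀ w n, h w ≤ n → ((Flw S Z φ w n).ncard : ℝ) ≤ c ^ n := by
  obtain ⟨dS, hd⟩ := h
  refine ⟨fun w => Part.some (@decide (S w) (dS w)), fun _ => 0, hd, Computable.const 0,
    fun w n _ => ?_⟩
  have : Flw S Z (fun w => Part.some (@decide (S w) (dS w))) w n = ∅ := by
    ext z
    simp only [Flw, Set.mem_ofPred_eq, Set.mem_empty_iff_false, iff_false, not_and]
    intro _ hz hb
    refine hb _ (Part.mem_some _) ?_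
    rw [decide_eq_true_iff]
    exact hS w z hz
  rw [this, Set.ncard_empty]
  simp only [Nat.cast_zero]
  positivity

omit [Fintype L] [DecidableEq L] in
theorem few_of (S : List L → Prop) (h : ComputablePred S) (c : ℝ) (hc : 0 ≤ c) :
    ∃ φ : List L →. Bool, Partrec φ ∧
      ∀ᶠ n : ℕ in atTop, ((Fl S φ n).ncard : ℝ) ≤ c ^ n := by
  obtain ⟨dS, hd⟩ := h
  refine ⟨fun w => Part.some (@decide (S w) (dS w)), hd, Filter.Eventually.of_forall fun n => ?_⟩
  have : Fl S (fun w => Part.some (@decide (S w) (dS w))) n = ∅ := by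
    ext w
    simp [Fl]
  rw [this, Set.ncard_empty]
  simp only [Nat.cast_zero]
  positivity

end Pool.Agent.Q267.OV
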