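import Pool.Agent.Q267.OV.Words

/-!
The number of the words of length `n` which reduce to the empty word.
-/

set_option autoImplicit false

namespace Pool.Agent.Q267.OV

open Filter

section stack

variable {I : Type} [DecidableEq I]

/-- the inverse letter -/
def inv (a : I × Bool) : I × Bool := (a.1, !a.2)

omit [DecidableEq I] in
theorem inv_inv (a : I × Bool) : inv (inv a) = a := by simp [inv]

/-- reading a letter on a reduced word (written backwards) -/
def step (s : List (I × Bool)) (b : I × Bool) : List (I × Bool) :=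
  if s.head? = some (inv b) then s.tail else b :: s

/-- the word reduces to the empty word -/
def Red (z : List (I × Bool)) : Prop := z.foldl step [] = []

theorem red_append (z z' : List (I × Bool)) (h : Red z) (h' : Red z') : Red (z ++ z') := by
  unfold Red at *
  rw [List.foldl_append, h, h']

theorem red_dec [Primcodable I] : ComputablePred (Red (I := I)) := by
  have h1 : Primrec (fun a : I × Bool => inv a) :=
    Primrec.fst.pair (Primrec.not.comp Primrec.snd)
  have h2 : Primrec₂ (step (I := I)) := by
    have e1 : PrimrecPred (fun p : List (I × Bool) × (I × Bool) => p.1.head? = some (inv p.2)) :=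
      Primrec.eq.comp (Primrec.list_head?.comp Primrec.fst)
        (Primrec.option_some.comp (h1.comp Primrec.snd))
    exact (Primrec.ite e1 (Primrec.list_tail.comp Primrec.fst)
      (Primrec.list_cons.comp Primrec.snd Primrec.fst)).to₂
  have h3 : Primrec (fun z : List (I × Bool) => z.foldl step []) :=
    Primrec.list_foldl (f := fun z : List (I × Bool) => z) (g := fun _ => ([] : List (I × Bool)))
      (h := fun _ (p : List (I × Bool) × (I × Bool)) => step p.1 p.2)
      Primrec.id (Primrec.const []) ((h2.comp (Primrec.fst.comp Primrec.snd)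
        (Primrec.snd.comp Primrec.snd)).to₂)
  have h4 : PrimrecPred (fun z : List (I × Bool) => z.foldl step [] = []) :=
    Primrec.eq.comp h3 (Primrec.const [])
  obtain ⟨d, hd⟩ := h4
  exact ⟨d, hd.to_comp⟩

theorem run_mk (z s : List (I × Bool)) :
      FreeGroup.mk (z.foldl step s).reverse = FreeGroup.mk s.reverse * FreeGroup.mk z := by
    revert s
    induction z with
    | nil => intro s; simp [← FreeGroup.one_eq_mk]
    | cons b z ih =>
      intro s
      rw [List.foldl_cons, ih]
      have e1 : FreeGroup.mk (b :: z) = FreeGroup.mk [b] * FreeGroup.mk z := by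
        rw [FreeGroup.mul_mk]; rfl
      rw [e1, ← mul_assoc]
      congr 1
      unfold step
      split_ifs with h
      · cases s with
        | nil => simp at h
        | cons a s =>
          simp only [List.head?_cons, Option.some.injEq] at h
          subst h
          rw [List.tail_cons, List.reverse_cons, ← FreeGroup.mul_mk, mul_assoc]
          have e2 : FreeGroup.mk [inv b] * FreeGroup.mk [b] = 1 := by
            have : FreeGroup.mk [inv b] = (FreeGroup.mk [b])⁻¹ := by
              rw [FreeGroup.inv_mk]
              simp [inv, FreeGroup.invRev]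
            rw [this, inv_mul_cancel]
          rw [e2, mul_one]
      · rw [List.reverse_cons, ← FreeGroup.mul_mk]

theorem run_chain (z s : List (I × Bool))
    (hs : s.IsChain (fun a b => a.1 = b.1 → a.2 = b.2)) :
    (z.foldl step s).IsChain (fun a b => a.1 = b.1 → a.2 = b.2) := by
  induction z generalizing s with
  | nil => exact hs
  | cons b z ih =>
    rw [List.foldl_cons]
    refine ih _ ?_
    unfold step
    split_ifs with h
    · exact hs.tail
    · rw [List.isChain_cons]
      refine ⟨fun y hy hby => ?_, hs⟩
      by_contra hne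
      apply h
      rw [Option.mem_def] at hy
      rw [hy, inv]
      congr 1
      refine Prod.ext hby.symm ?_
      cases h1 : b.2 <;> cases h2 : y.2 <;> simp_all

theorem red_iff (z : List (I × Bool)) : Red z ↔ FreeGroup.mk z = 1 := by
  have h1 := run_mk z []
  simp only [List.reverse_nil, ← FreeGroup.one_eq_mk, one_mul] at h1
  constructor
  · intro h
    rw [show z.foldl step [] = [] from h] at h1
    simp only [List.reverse_nil, ← FreeGroup.one_eq_mk] at h1
    exact h1.symm
  · intro h
    rw [h] at h1
    have h2 := run_chain z [] List.isChain_nil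
    have h3 : FreeGroup.IsReduced (z.foldl step []).reverse := by
      unfold FreeGroup.IsReduced
      rw [List.isChain_reverse]
      exact h2.imp (fun a b hab hba => (hab hba.symm).symm)
    have h4 : (FreeGroup.mk (z.foldl step []).reverse).toWord = (z.foldl step []).reverse := by
      rw [FreeGroup.toWord_mk, h3.reduce_eq]
    rw [h1, FreeGroup.toWord_one] at h4
    unfold Red
    exact List.reverse_eq_nil_iff.mp h4.symm

variable [Fintype I] [Nonempty I]

open Classical in
/-- the words of length `n` which reduce the stack `s` to the empty one -/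
noncomputable def Fs (n : ℕ) (s : List (I × Bool)) : Finset (List (I × Bool)) :=
  (words (I × Bool) n).toFinset.filter (fun z => z.foldl step s = [])

theorem mem_Fs (n : ℕ) (s z : List (I × Bool)) :
    z ∈ Fs n s ↔ z.length = n ∧ z.foldl step s = [] := by
  classical
  simp [Fs, mem_words]

theorem card_Fs (n : ℕ) (s : List (I × Bool)) :
    (Fs (n + 1) s).card = ∑ b : I × Bool, (Fs n (step s b)).card := by
  classical
  have h : Fs (n + 1) s = Finset.univ.biUnion
      (fun b : I × Bool => (Fs n (step s b)).image (fun z => b :: z)) := by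
    ext z
    rw [mem_Fs, Finset.mem_biUnion]
    constructor
    · rintro ⟨h1, h2⟩
      cases z with
      | nil => simp at h1
      | cons b z =>
        refine ⟨b, Finset.mem_univ _, Finset.mem_image.mpr ⟨z, ?_, rfl⟩⟩
        rw [mem_Fs]
        exact ⟨by simpa using h1, h2⟩
    · rintro ⟨b, _, h1⟩
      obtain ⟨w, hw, rfl⟩ := Finset.mem_image.mp h1
      rw [mem_Fs] at hw
      exact ⟨by simp [hw.1], hw.2⟩
  rw [h, Finset.card_biUnion]
  · refine Finset.sum_congr rfl fun b _ => ?_
    exact Finset.card_image_of_injective _ (fun x y h => (List.cons.inj h).2)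
  · intro a _ b _ hab
    rw [Function.onFun, Finset.disjoint_left]
    intro z h1 h2
    obtain ⟨x, _, rfl⟩ := Finset.mem_image.mp h1
    obtain ⟨y, _, h3⟩ := Finset.mem_image.mp h2
    exact hab (List.cons.inj h3).1.symm

/-- ballot numbers -/
def bal (n : ℕ) : ℕ → ℤ
  | 0 => 1
  | m + 1 => (n.choose (m + 1) : ℤ) - n.choose m

theorem bal_succ (n m : ℕ) : bal (n + 1) (m + 1) = bal n (m + 1) + bal n m := by
  cases m with
  | zero => simp [bal]
  | succ m =>
    simp only [bal]
    rw [Nat.choose_succ_succ n (m + 1), Nat.choose_succ_succ n m]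
    push_cast
    ring

theorem bal_mid (m : ℕ) : bal (2 * m + 1) (m + 1) = 0 := by
  simp only [bal]
  rw [sub_eq_zero]
  exact_mod_cast Nat.choose_symm_half m

theorem lower (n m : ℕ) (s : List (I × Bool)) (h : n = s.length + 2 * m) :
    bal n m * ((Fintype.card (I × Bool) : ℤ) - 1) ^ m ≤ (Fs n s).card := by
  classical
  induction n generalizing m s with
  | zero =>
    have h1 : m = 0 := by omega
    have h2 : s = [] := List.length_eq_zero_iff.mp (by omega)
    subst h1 h2
    have : ([] : List (I × Bool)) ∈ Fs 0 [] := by rw [mem_Fs]; exact ⟨rfl, rfl⟩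
    have h3 : 1 ≤ (Fs 0 ([] : List (I × Bool))).card := Finset.card_pos.mpr ⟨_, this⟩
    simp only [bal, pow_zero, mul_one]
    exact_mod_cast h3
  | succ n ih =>
    rw [card_Fs]
    cases s with
    | nil =>
      obtain ⟨m', rfl⟩ : ∃ m', m = m' + 1 := ⟨m - 1, by simp at h; omega⟩
      have hn : n = 1 + 2 * m' := by simp at h; omega
      have h1 : ∀ b : I × Bool, bal n m' * ((Fintype.card (I × Bool) : ℤ) - 1) ^ m' ≤
          (Fs n (step [] b)).card := by
        intro b
        refine ih m' (step [] b) ?_
        simp [step]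
        omega
      have h2 : bal (n + 1) (m' + 1) = bal n m' := by
        rw [bal_succ]
        have : bal n (m' + 1) = 0 := by
          rw [show n = 2 * m' + 1 by omega]
          exact bal_mid m'
        rw [this, zero_add]
      rw [h2]
      have h3 : ∑ b : I × Bool, (bal n m' * ((Fintype.card (I × Bool) : ℤ) - 1) ^ m') ≤
          ∑ b : I × Bool, ((Fs n (step [] b)).card : ℤ) := Finset.sum_le_sum fun b _ => h1 b
      rw [Finset.sum_const, Finset.card_univ, nsmul_eq_mul] at h3
      push_cast
      refine le_trans ?_ h3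
      have h4 : 0 ≤ bal n m' * ((Fintype.card (I × Bool) : ℤ) - 1) ^ m' := by
        have hb : 0 ≤ bal n m' := by
          cases m' with
          | zero => simp [bal]
          | succ m' =>
            simp only [bal]
            have : n.choose m' ≤ n.choose (m' + 1) :=
              Nat.choose_le_succ_of_lt_half_left (by omega)
            have : (n.choose m' : ℤ) ≤ n.choose (m' + 1) := by exact_mod_cast this
            linarith
        have : (0 : ℤ) ≤ (Fintype.card (I × Bool) : ℤ) - 1 := by
          have : (1 : ℤ) ≤ (Fintype.card (I × Bool) : ℤ) := by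
            exact_mod_cast (Fintype.card_pos (α := I × Bool))
          linarith
        positivity
      rw [pow_succ]
      nlinarith
    | cons a s =>
      have hlen : n = s.length + 2 * m := by simp at h; omega
      have e1 : step (a :: s) (inv a) = s := by simp [step, inv_inv]
      have e2 : ∀ b : I × Bool, b ≠ inv a → step (a :: s) b = b :: a :: s := by
        intro b hb
        unfold step
        rw [if_neg]
        intro h'
        simp only [List.head?_cons, Option.some.injEq] at h'
        exact hb (by rw [h', inv_inv])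
      rw [← Finset.add_sum_erase _ _ (Finset.mem_univ (inv a)), e1]
      have h1 := ih m s hlen
      cases m with
      | zero =>
        simp only [bal, pow_zero, mul_one] at h1 ⊢
        push_cast
        have : (0 : ℤ) ≤ ∑ b ∈ Finset.univ.erase (inv a), ((Fs n (step (a :: s) b)).card : ℤ) :=
          Finset.sum_nonneg fun _ _ => by positivity
        linarith
      | succ m =>
        have h2 : ∀ b ∈ Finset.univ.erase (inv a), bal n m *
            ((Fintype.card (I × Bool) : ℤ) - 1) ^ m ≤ ((Fs n (step (a :: s) b)).card : ℤ) := by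
          intro b hb
          rw [e2 b (Finset.ne_of_mem_erase hb)]
          refine ih m (b :: a :: s) ?_
          simp
          omega
        have h3 := Finset.sum_le_sum h2
        rw [Finset.sum_const, Finset.card_erase_of_mem (Finset.mem_univ _), Finset.card_univ,
          nsmul_eq_mul] at h3
        have h4 : ((Fintype.card (I × Bool) - 1 : ℕ) : ℤ) = (Fintype.card (I × Bool) : ℤ) - 1 := by
          have : 1 ≤ Fintype.card (I × Bool) := Fintype.card_pos_iff.mpr ⟨a⟩
          push_cast [this]
          ring
        rw [h4] at h3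
        rw [bal_succ, pow_succ]
        rw [pow_succ] at h1
        push_cast
        nlinarith

theorem bal_central (m : ℕ) (hm : 0 < m) : ((m : ℤ) + 1) * bal (2 * m) m = (2 * m).choose m := by
  obtain ⟨m, rfl⟩ : ∃ k, m = k + 1 := ⟨m - 1, by omega⟩
  simp only [bal]
  have h := Nat.choose_succ_right_eq (2 * (m + 1)) m
  have h2 : 2 * (m + 1) - m = m + 2 := by omega
  rw [h2] at h
  have h3 : ((2 * (m + 1)).choose (m + 1) : ℤ) * (m + 1) =
      (2 * (m + 1)).choose m * (m + 2) := by exact_mod_cast h
  push_cast
  linarith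

theorem growth (c : ℝ) (hc : 0 ≤ c) (h : c ^ 2 < 4 * ((Fintype.card (I × Bool) : ℝ) - 1)) :
    ∃ n, 0 < n ∧ c ^ n < ({z : List (I × Bool) | z.length = n ∧ Red z}.ncard : ℝ) := by
  set Λ : ℝ := (Fintype.card (I × Bool) : ℝ) - 1 with hΛ
  have hΛ1 : 1 ≤ Λ := by
    have h1 : 2 ≤ Fintype.card (I × Bool) := by
      rw [Fintype.card_prod, Fintype.card_bool]
      have := Fintype.card_pos (α := I)
      omega
    have : (2 : ℝ) ≤ (Fintype.card (I × Bool) : ℝ) := by exact_mod_cast h1
    linarith
  obtain ⟨d, hd0, hcd, hd⟩ : ∃ d : ℝ, 0 < d ∧ c ≤ d ∧ d ^ 2 < 4 * Λ := by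
    rcases le_total c (1 / 2) with h1 | h1
    · exact ⟨1 / 2, by norm_num, h1, by nlinarith⟩
    · exact ⟨c, by linarith, le_rfl, h⟩
  have hρ : 1 < 4 * Λ / d ^ 2 := (one_lt_div (by positivity)).mpr hd
  have h1 := tendsto_pow_const_div_const_pow_of_one_lt 2 hρ
  obtain ⟨m, hm1, hm2⟩ := ((h1.eventually_lt_const (show (0 : ℝ) < 1 / 4 by norm_num)).and
    (eventually_ge_atTop 1)).exists
  have hm : 0 < m := hm2
  refine ⟨2 * m, by omega, ?_⟩
  have hmr : (1 : ℝ) ≤ m := by exact_mod_cast hm2
  have h2 : ({z : List (I × Bool) | z.length = 2 * m ∧ Red z}.ncard : ℝ) =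
      ((Fs (2 * m) ([] : List (I × Bool))).card : ℝ) := by
    rw [← Set.ncard_coe_finset]
    congr 2
    ext z
    rw [Set.mem_ofPred_eq, Finset.mem_coe, mem_Fs]
    rfl
  rw [h2]
  have h3 := lower (I := I) (2 * m) m [] (by simp)
  have h4 := bal_central m hm
  have h5 := Nat.four_pow_le_two_mul_self_mul_centralBinom m hm
  rw [Nat.centralBinom] at h5
  have h3r : (bal (2 * m) m : ℝ) * Λ ^ m ≤ ((Fs (2 * m) ([] : List (I × Bool))).card : ℝ) := by
    rw [hΛ]
    exact_mod_cast h3
  have h4r : ((m : ℝ) + 1) * (bal (2 * m) m : ℝ) = ((2 * m).choose m : ℝ) := by exact_mod_cast h4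
  have h5r : (4 : ℝ) ^ m ≤ 2 * m * ((2 * m).choose m : ℝ) := by exact_mod_cast h5
  have h6 : 4 * (m : ℝ) ^ 2 < (4 * Λ / d ^ 2) ^ m := by
    rw [div_lt_iff₀ (by positivity)] at hm1
    linarith
  have h7 : 4 * (m : ℝ) ^ 2 * (d ^ 2) ^ m < (4 * Λ) ^ m := by
    rw [div_pow, lt_div_iff₀ (by positivity)] at h6
    exact h6
  have h8 : (4 * Λ) ^ m ≤ 2 * m * (m + 1) * ((Fs (2 * m) ([] : List (I × Bool))).card : ℝ) := by
    calc (4 * Λ) ^ m = 4 ^ m * Λ ^ m := by rw [mul_pow]
      _ ≤ (2 * m * ((2 * m).choose m : ℝ)) * Λ ^ m :=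
          mul_le_mul_of_nonneg_right h5r (by positivity)
      _ = 2 * m * (m + 1) * ((bal (2 * m) m : ℝ) * Λ ^ m) := by rw [← h4r]; ring
      _ ≤ _ := mul_le_mul_of_nonneg_left h3r (by positivity)
  have h9 : 2 * (m : ℝ) * (m + 1) ≤ 4 * m ^ 2 := by nlinarith
  have hcard : (0 : ℝ) ≤ ((Fs (2 * m) ([] : List (I × Bool))).card : ℝ) := by positivity
  have h10 : 4 * (m : ℝ) ^ 2 * (d ^ 2) ^ m <
      4 * (m : ℝ) ^ 2 * ((Fs (2 * m) ([] : List (I × Bool))).card : ℝ) :=
    h7.trans_le (h8.trans (mul_le_mul_of_nonneg_right h9 hcard))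
  have h11 := lt_of_mul_lt_mul_left h10 (by positivity)
  have h12 : c ^ (2 * m) ≤ (d ^ 2) ^ m := by
    rw [← pow_mul]
    exact pow_le_pow_left₀ hc hcd _
  exact h12.trans_lt h11

end stack

end Pool.Agent.Q267.OV
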