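import Mathlib
import Pool.Agent.Q298.DF.Maj

/-!
Lists of words, computably filtered; supermultiplicativity.
-/

set_option autoImplicit false

namespace Pool.Agent.Q267.OV

theorem computable_filter {α : Type} [Primcodable α] {p : α → Bool} (hp : Computable p) :
    Computable (fun l : List α => l.filter p) := by
  have h1 : Computable (fun q : List α × (ℕ × List α) =>
      (Option.casesOn (q.1[q.2.1]?) ([] : List α) (fun a => bif p a then [a] else []) : List α)) := by
    refine Computable.option_casesOn
      (Computable.list_getElem?.comp Computable.fst (Computable.fst.comp Computable.snd))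
      (Computable.const []) ?_
    refine Computable.cond (hp.comp Computable.snd) ?_ (Computable.const [])
    exact Computable.list_cons.comp Computable.snd (Computable.const [])
  have h2 : Computable₂ (fun (l : List α) (q : ℕ × List α) =>
      q.2 ++ (Option.casesOn (l[q.1]?) ([] : List α) (fun a => bif p a then [a] else []) :
        List α)) :=
    (Computable.list_append.comp (Computable.snd.comp Computable.snd) h1).to₂
  have h3 := Computable.nat_rec (f := fun l : List α => l.length) (g := fun _ => ([] : List α))
    Computable.list_length (Computable.const []) h2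
  refine h3.of_eq (fun l => ?_)
  have h4 : ∀ n : ℕ, (Nat.rec (motive := fun _ => List α) [] (fun y IH =>
      IH ++ (Option.casesOn (l[y]?) ([] : List α) (fun a => bif p a then [a] else []) : List α)) n :
        List α) = (l.take n).filter p := by
    intro n
    induction n with
    | zero => simp
    | succ n ih =>
      show (Nat.rec (motive := fun _ => List α) [] (fun y IH =>
        IH ++ (Option.casesOn (l[y]?) ([] : List α) (fun a => bif p a then [a] else []) :
          List α)) n : List α) ++ _ = _
      rw [ih, List.take_add_one, List.filter_append]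
      congr 1
      cases h : l[n]? with
      | none => simp
      | some a => cases h5 : p a <;> simp [h5]
  rw [h4, List.take_length]

variable {L : Type} [Fintype L] [DecidableEq L] [Primcodable L]

variable (L) in
/-- all words of length `n` -/
noncomputable def words : ℕ → List (List L)
  | 0 => [[]]
  | n + 1 => (words n).flatMap (fun w => (Finset.univ : Finset L).toList.map (fun a => a :: w))

omit [DecidableEq L] [Primcodable L] in
theorem mem_words (n : ℕ) (w : List L) : w ∈ words L n ↔ w.length = n := by
  induction n generalizing w with
  | zero => simp [words, List.length_eq_zero_iff]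
  | succ n ih =>
    rw [words, List.mem_flatMap]
    constructor
    · rintro ⟨v, hv, h⟩
      rw [List.mem_map] at h
      obtain ⟨a, _, rfl⟩ := h
      rw [ih] at hv
      simp [hv]
    · intro h
      cases w with
      | nil => simp at h
      | cons a w =>
        refine ⟨w, (ih w).mpr (by simpa using h), ?_⟩
        rw [List.mem_map]
        exact ⟨a, by simp, rfl⟩

omit [DecidableEq L] [Primcodable L] in
theorem nodup_words (n : ℕ) : (words L n).Nodup := by
  induction n with
  | zero => simp [words]
  | succ n ih =>
    rw [words, List.nodup_flatMap]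
    refine ⟨fun w _ => ?_, ?_⟩
    · exact (Finset.nodup_toList _).map (fun a b h => by simpa using h)
    · refine ih.imp (fun {v w} hvw => ?_)
      simp only [Function.onFun, List.disjoint_left]
      intro u hu hu'
      rw [List.mem_map] at hu hu'
      obtain ⟨a, _, rfl⟩ := hu
      obtain ⟨b, _, h⟩ := hu'
      exact hvw (List.cons.inj h).2.symm

omit [DecidableEq L] in
theorem words_prim : Primrec (words L) := by
  have h : Primrec₂ (fun (_ : ℕ) (l : List (List L)) =>
      l.flatMap (fun w => (Finset.univ : Finset L).toList.map (fun a => a :: w))) := by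
    have h1 : Primrec₂ (fun (q : ℕ × List (List L)) (w : List L) =>
        (Finset.univ : Finset L).toList.map (fun a => a :: w)) := by
      have h2 : Primrec₂ (fun (q : (ℕ × List (List L)) × List L) (a : L) => a :: q.2) :=
        (Primrec.list_cons.comp Primrec.snd (Primrec.snd.comp Primrec.fst)).to₂
      exact (Primrec.list_map (Primrec.const (Finset.univ : Finset L).toList) h2).to₂
    exact (Primrec.list_flatMap Primrec.snd h1).to₂
  refine (Primrec.nat_rec₁ ([[]] : List (List L)) h).of_eq (fun n => ?_)
  induction n with
  | zero => rfl
  | succ n ih =>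
    rw [words, ← ih]

omit [DecidableEq L] [Primcodable L] in
theorem finite_len (n : ℕ) (Z : List L → Prop) : {z : List L | z.length = n ∧ Z z}.Finite := by
  classical
  refine ((words L n).toFinset.finite_toSet).subset (fun z hz => ?_)
  simp [mem_words, hz.1]

omit [DecidableEq L] [Primcodable L] in
theorem ncard_words (n : ℕ) (p : List L → Bool) :
    ((words L n).filter p).length = {z : List L | z.length = n ∧ p z = true}.ncard := by
  classical
  have h : {z : List L | z.length = n ∧ p z = true} = (((words L n).filter p).toFinset : Set _) := by
    ext z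
    simp [mem_words]
  rw [h, Set.ncard_coe_finset, List.toFinset_card_of_nodup ((nodup_words n).filter _)]

omit [DecidableEq L] [Primcodable L] in
theorem mul_le (Z : List L → Prop) (hZ : ∀ z z', Z z → Z z' → Z (z ++ z')) (a b : ℕ) :
    {z : List L | z.length = a ∧ Z z}.ncard * {z : List L | z.length = b ∧ Z z}.ncard ≤
      {z : List L | z.length = a + b ∧ Z z}.ncard := by
  rw [← Set.ncard_prod]
  refine Set.ncard_le_ncard_of_injOn (fun q : List L × List L => q.1 ++ q.2) ?_ ?_ (finite_len _ _)
  · rintro ⟨x, y⟩ ⟨⟨h1, h2⟩, h3, h4⟩
    exact ⟨by simp [h1, h3], hZ _ _ h2 h4⟩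
  · rintro ⟨x, y⟩ ⟨⟨h1, _⟩, _⟩ ⟨x', y'⟩ ⟨⟨h1', _⟩, _⟩ h
    have := List.append_inj h (by simp only at h1 h1' ⊢; omega)
    exact Prod.ext this.1 this.2

omit [DecidableEq L] [Primcodable L] in
theorem pow_le (Z : List L → Prop) (hZ : ∀ z z', Z z → Z z' → Z (z ++ z')) (n j : ℕ) :
    {z : List L | z.length = n ∧ Z z}.ncard ^ (j + 1) ≤
      {z : List L | z.length = n * (j + 1) ∧ Z z}.ncard := by
  induction j with
  | zero => simp
  | succ j ih =>
    rw [pow_succ]
    refine (Nat.mul_le_mul_right _ ih).trans ((mul_le Z hZ _ _).trans ?_)
    rw [Nat.mul_succ n (j + 1)]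

end Pool.Agent.Q267.OV
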